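import Mathlib

/-!
# MP_c84630_nt: if Ulam's process never stops, then there are infinitely many twin primes or all late terms are `1` mod `3`
-/

namespace Pool.Agent.Results.MP_c84630_nt.TwinDichotomy

open Nat

/-- The primes among the numbers `q n + q i - 1`, `1 ≤ i < n`. -/
def Cand (q : ℕ → ℕ) (n : ℕ) : Set ℕ :=
  {p | p.Prime ∧ ∃ i, 1 ≤ i ∧ i < n ∧ p = q n + q i - 1}

/-- The process with the seed `3, 5` never stops, and `q 1, q 2, q 3, …` is the sequence (the value `q 0` plays no
role): `q (n + 1)` is the smallest prime among the numbers `q n + q i - 1`, `1 ≤ i < n`. -/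
structure NeverStops (q : ℕ → ℕ) : Prop where
  one : q 1 = 3
  two : q 2 = 5
  step : ∀ n, 2 ≤ n → IsLeast (Cand q n) (q (n + 1))

variable {q : ℕ → ℕ}

theorem NeverStops.prime (h : NeverStops q) : ∀ n, 1 ≤ n → (q n).Prime := by
  intro n hn
  rcases Nat.lt_or_ge n 3 with h3 | h3
  · have : n = 1 ∨ n = 2 := by omega
    rcases this with rfl | rfl
    · rw [h.one]; norm_num
    · rw [h.two]; norm_num
  · obtain ⟨m, rfl⟩ : ∃ m, n = m + 1 := ⟨n - 1, by omega⟩
    exact (h.step m (by omega)).1.1

theorem NeverStops.ge3 (h : NeverStops q) : ∀ n, 1 ≤ n → 3 ≤ q n := by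
  intro n
  induction n using Nat.strong_induction_on with
  | _ n ih =>
    intro hn
    rcases Nat.lt_or_ge n 3 with h3 | h3
    · have : n = 1 ∨ n = 2 := by omega
      rcases this with rfl | rfl
      · rw [h.one]
      · rw [h.two]; norm_num
    · obtain ⟨m, rfl⟩ : ∃ m, n = m + 1 := ⟨n - 1, by omega⟩
      obtain ⟨i, hi1, hi2, hi⟩ := (h.step m (by omega)).1.2
      have a := ih m (by omega) (by omega)
      have b := ih i (by omega) hi1
      omega

/-- Every term is followed by a term which is larger by at least `2`. -/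
theorem NeverStops.succ (h : NeverStops q) {n : ℕ} (hn : 1 ≤ n) : q n + 2 ≤ q (n + 1) := by
  rcases Nat.lt_or_ge n 2 with h2 | h2
  · have : n = 1 := by omega
    subst this
    rw [h.one, h.two]
  · obtain ⟨i, hi1, hi2, hi⟩ := (h.step n h2).1.2
    have b := h.ge3 i hi1
    omega

theorem NeverStops.lt (h : NeverStops q) {i n : ℕ} (hi : 1 ≤ i) (hin : i < n) : q i < q n := by
  induction n, hin using Nat.le_induction with
  | base =>
    have := h.succ hi
    rw [Nat.succ_eq_add_one]
    omega
  | succ n hn ih =>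
    have := h.succ (n := n) (by omega)
    omega

theorem NeverStops.le_q (h : NeverStops q) : ∀ n, 1 ≤ n → n ≤ q n := by
  intro n hn
  induction n, hn using Nat.le_induction with
  | base => rw [h.one]; norm_num
  | succ n hn ih =>
    have := h.succ hn
    omega

theorem NeverStops.odd (h : NeverStops q) {n : ℕ} (hn : 1 ≤ n) : q n % 2 = 1 := by
  have h1 := h.prime n hn
  have h2 := h.ge3 n hn
  rcases h1.eq_two_or_odd with h3 | h3
  · omega
  · exact h3

theorem mod3_of_prime {p : ℕ} (hp : p.Prime) (h : 3 < p) : p % 3 = 1 ∨ p % 3 = 2 := by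
  have : ¬ 3 ∣ p := fun h' => by
    have := (Nat.prime_dvd_prime_iff_eq Nat.prime_three hp).1 h'
    omega
  omega

theorem NeverStops.mod3 (h : NeverStops q) {n : ℕ} (hn : 2 ≤ n) : q n % 3 = 1 ∨ q n % 3 = 2 := by
  refine mod3_of_prime (h.prime n (by omega)) ?_
  have := h.lt (i := 1) (n := n) le_rfl (by omega)
  rw [h.one] at this
  exact this

/-- After a term `2` mod `3` which is not the smaller one of a pair of twin primes comes a term `2` mod `3`, and the
partner is `1` mod `3`. -/
theorem NeverStops.stay (h : NeverStops q) {n : ℕ} (hn : 2 ≤ n) (h2 : q n % 3 = 2)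
    (ht : ¬ (q n + 2).Prime) :
    q (n + 1) % 3 = 2 ∧ ∃ i, 1 ≤ i ∧ i < n ∧ q i % 3 = 1 ∧ q (n + 1) = q n + q i - 1 := by
  obtain ⟨hp, i, hi1, hi2, hi⟩ := (h.step n hn).1
  have hi3 := h.ge3 i hi1
  have hq3 := h.ge3 n (by omega)
  rcases Nat.lt_or_ge i 2 with h4 | h4
  · have : i = 1 := by omega
    subst this
    rw [h.one] at hi
    rw [hi, show q n + 3 - 1 = q n + 2 by omega] at hp
    exact absurd hp ht
  · have h5 := mod3_of_prime hp (by omega)
    rcases h.mod3 h4 with h6 | h6
    · exact ⟨by omega, i, hi1, hi2, h6, hi⟩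
    · omega

theorem not_prime_fact {N k : ℕ} (hk : 2 ≤ k) (hkN : k ≤ N) : ¬ (N ! + k).Prime := by
  intro hp
  have h1 : k ∣ N ! + k := (Nat.dvd_add_left (dvd_refl k)).2 (Nat.dvd_factorial (by omega) hkN)
  have h2 := (Nat.dvd_prime hp).1 h1
  have h3 := Nat.factorial_pos N
  omega

/-- If the process never stops, then between a term `q m` which is `2` mod `3` and `(q m)! + 1` there is a term `q n`
such that `q n`, `q n + 2 = q (n + 1)` are twin primes. -/
theorem NeverStops.twin (h : NeverStops q) {m : ℕ} (hm : 1 ≤ m) (h2 : q m % 3 = 2) :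
    ∃ n, m ≤ n ∧ q n ≤ (q m)! + 1 ∧ (q n).Prime ∧ (q n + 2).Prime := by
  by_contra hcon
  push Not at hcon
  have hm2 : 2 ≤ m := by
    rcases Nat.lt_or_ge m 2 with h3 | h3
    · have : m = 1 := by omega
      subst this
      rw [h.one] at h2
      omega
    · exact h3
  have hle : q m ≤ (q m)! := Nat.self_le_factorial _
  -- all terms up to the bound are `2` mod `3`
  have key : ∀ n, m ≤ n → q n ≤ (q m)! + 1 → ∀ j, m ≤ j → j ≤ n → q j % 3 = 2 := by
    intro n hn
    induction n, hn using Nat.le_induction with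
    | base =>
      intro _ j hj1 hj2
      have : j = m := by omega
      rw [this]
      exact h2
    | succ n hn ih =>
      intro hb j hj1 hj2
      have h3 := h.succ (n := n) (by omega)
      rcases Nat.lt_or_ge j (n + 1) with h4 | h4
      · exact ih (by omega) j hj1 (by omega)
      · have : j = n + 1 := by omega
        rw [this]
        exact (h.stay (by omega) (ih (by omega) n hn le_rfl)
          (hcon n hn (by omega) (h.prime n (by omega)))).1
  -- the last term up to the bound
  have hex : ∃ n, m ≤ n ∧ (q m)! + 1 < q (n + 1) := by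
    refine ⟨m + (q m)! + 1, by omega, ?_⟩
    have := h.le_q (m + (q m)! + 1 + 1) (by omega)
    omega
  classical
  obtain ⟨hn1, hn2⟩ := Nat.find_spec hex
  set n := Nat.find hex with hn
  have hn3 : q n ≤ (q m)! + 1 := by
    rcases Nat.lt_or_ge m n with h3 | h3
    · by_contra h4
      have := Nat.find_min hex (m := n - 1) (by omega)
      apply this
      refine ⟨by omega, ?_⟩
      rw [show n - 1 + 1 = n by omega]
      omega
    · have : n = m := by omega
      rw [this]
      omega
  obtain ⟨_, i, hi1, hi2, hi3, hi4⟩ := h.stay (n := n) (by omega) (key n hn1 hn3 n hn1 le_rfl)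
    (hcon n hn1 hn3 (h.prime n (by omega)))
  have him : i < m := by
    by_contra h5
    have := key n hn1 hn3 i (by omega) (by omega)
    omega
  have hlt := h.lt hi1 him
  have hge := h.ge3 i hi1
  have hnp := not_prime_fact (N := q m) (k := q (n + 1) - (q m)!) (by omega) (by omega)
  rw [show (q m)! + (q (n + 1) - (q m)!) = q (n + 1) by omega] at hnp
  exact hnp (h.prime (n + 1) (by omega))

/-- If the process with the seed `3, 5` never stops, then there are infinitely many twin primes (even as consecutive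
terms of the sequence), or all but finitely many terms are `1` mod `3`, with `q n + 4` composite. -/
theorem result (q : ℕ → ℕ) (h : NeverStops q) :
    {p : ℕ | p.Prime ∧ (p + 2).Prime ∧ ∃ n, 1 ≤ n ∧ q n = p ∧ q (n + 1) = p + 2}.Infinite ∨
      ∃ N, ∀ n, N ≤ n → q n % 3 = 1 ∧ ¬ (q n + 4).Prime := by
  by_cases hinf : ∀ N, ∃ m, N ≤ m ∧ q m % 3 = 2
  · left
    rw [Set.infinite_iff_exists_gt]
    intro a
    obtain ⟨m, hm, h2⟩ := hinf (a + 2)
    obtain ⟨n, hn1, hn2, hn3, hn4⟩ := h.twin (m := m) (by omega) h2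
    have h3 := h.le_q n (by omega)
    have h4 := (h.step n (by omega)).2 ⟨hn4, 1, le_rfl, by omega, by rw [h.one]; omega⟩
    have h5 := h.succ (n := n) (by omega)
    exact ⟨q n, ⟨hn3, hn4, n, by omega, rfl, by omega⟩, by omega⟩
  · right
    push Not at hinf
    obtain ⟨N, hN⟩ := hinf
    have hN1 : ∀ n, N + 3 ≤ n → q n % 3 = 1 := by
      intro n hn
      rcases h.mod3 (n := n) (by omega) with h1 | h1
      · exact h1
      · exact absurd h1 (hN n (by omega))
    refine ⟨N + 3, fun n hn => ⟨hN1 n hn, fun hp => ?_⟩⟩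
    have h1 := (h.step n (by omega)).2 ⟨hp, 2, by omega, by omega, by rw [h.two]; omega⟩
    have h2 := h.succ (n := n) (by omega)
    have h3 := hN1 n hn
    have h4 := hN1 (n + 1) (by omega)
    have h5 := h.odd (n := n) (by omega)
    have h6 := h.odd (n := n + 1) (by omega)
    omega

end Pool.Agent.Results.MP_c84630_nt.TwinDichotomy
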